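import Pool.Agent.HF.Stmts

/-! Squad HF, modules GE3 (products) and GE4 (inverses). -/

set_option autoImplicit false

namespace Pool.Agent.HF.H79

open Pool.Agent.HF

noncomputable section

variable {G D : Type} [Group G] [DivisionRing D]

theorem sg_ne (sg : G →* D) (u : G) : sg u ≠ 0 := by
  intro h
  have h1 : sg u * sg u⁻¹ = 1 := by rw [← map_mul, mul_inv_cancel, map_one]
  rw [h, zero_mul] at h1
  exact zero_ne_one h1

theorem sg_inv (sg : G →* D) (u : G) : sg u⁻¹ = (sg u)⁻¹ := by
  have h1 : sg u * sg u⁻¹ = 1 := by rw [← map_mul, mul_inv_cancel, map_one]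
  exact (inv_eq_of_mul_eq_one_right h1).symm

/-- conjugation by sg u -/
def cj (sg : G →* D) (u : G) : D →+* D where
  toFun x := sg u * x * sg u⁻¹
  map_one' := by rw [mul_one, ← map_mul, mul_inv_cancel, map_one]
  map_zero' := by rw [mul_zero, zero_mul]
  map_add' x y := by rw [mul_add, add_mul]
  map_mul' x y := by
    have h : sg u⁻¹ * sg u = 1 := by rw [← map_mul, inv_mul_cancel, map_one]
    calc sg u * (x * y) * sg u⁻¹ = sg u * x * 1 * y * sg u⁻¹ := by simp only [mul_assoc, one_mul]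
      _ = sg u * x * (sg u⁻¹ * sg u) * y * sg u⁻¹ := by rw [h]
      _ = _ := by simp only [mul_assoc]

theorem cj_apply (sg : G →* D) (u : G) (x : D) : cj sg u x = sg u * x * sg u⁻¹ := rfl

theorem conj_mem (sg : G →* D) (u : G) {R R' : Set G} (h : ∀ r ∈ R, u * r * u⁻¹ ∈ R') {x : D}
    (hx : x ∈ DS sg R) : sg u * x * sg u⁻¹ ∈ DS sg R' := by
  have h1 : DS sg R ≤ (DS sg R').comap (cj sg u) := by
    refine Subfield.closure_le.2 ?_
    rintro _ ⟨r, hr, rfl⟩
    change cj sg u (sg r) ∈ DS sg R'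
    rw [cj_apply, ← map_mul, ← map_mul]
    exact Subfield.subset_closure ⟨_, h r hr, rfl⟩
  exact h1 hx

section

variable {K : Cxs} {sg : G →* D} {S : Subgroup G}

theorem cx_sum (hB : CxB K sg S) {I : Type} (F : Finset I) (f : I → D)
    (hf : ∀ i ∈ F, f i ∈ DS sg (S : Set G)) :
    cx K sg S (∑ i ∈ F, f i) ≤ ∑ i ∈ F, cx K sg S (f i) := by
  classical
  induction F using Finset.induction_on with
  | empty => rw [Finset.sum_empty, Finset.sum_empty, hB.zero]
  | insert a F ha ih =>
    rw [Finset.sum_insert ha, Finset.sum_insert ha]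
    have h1 := hB.add (f a) (hf a (Finset.mem_insert_self _ _)) (∑ i ∈ F, f i)
      (sum_mem fun i hi => hf i (Finset.mem_insert_of_mem hi))
    exact h1.trans (add_le_add le_rfl (ih fun i hi => hf i (Finset.mem_insert_of_mem hi)))

theorem zero_lt_cpx (hB : CxB K sg S) (e : Ex G) : 0 < cpx K e :=
  lt_of_lt_of_le zero_lt_one (hB.one_le e)

/-- everything below `Om c` is closed under finite sums -/
theorem sum_lt_Om {I : Type} (c : K.T) (F : Finset I) (f : I → K.T) (h : ∀ i ∈ F, f i < K.Om c) :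
    ∑ i ∈ F, f i < K.Om c := by
  classical
  induction F using Finset.induction_on with
  | empty =>
    rw [Finset.sum_empty]
    exact lt_trans zero_lt_one (K.one_lt_Om c)
  | insert a F ha ih =>
    rw [Finset.sum_insert ha]
    exact K.Om_add _ _ _ (h a (Finset.mem_insert_self _ _))
      (ih fun i hi => h i (Finset.mem_insert_of_mem hi))


/-- sums over the antidiagonals -/
theorem anti_sum (f g : ℤ → K.T) {s t : Set ℤ} (hs : s.IsPWO) (ht : t.IsPWO) (F : Finset ℤ) :
    ∃ F1 F2 : Finset ℤ, ∑ n ∈ F, ∑ ij ∈ Finset.antidiagonal hs ht n, f ij.1 * g ij.2 ≤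
      (∑ i ∈ F1, f i) * ∑ j ∈ F2, g j := by
  classical
  let P : Finset (ℤ × ℤ) := F.biUnion fun n => Finset.antidiagonal hs ht n
  refine ⟨P.image Prod.fst, P.image Prod.snd, ?_⟩
  have hd : Set.PairwiseDisjoint (F : Set ℤ) fun n => Finset.antidiagonal hs ht n := by
    intro m _ n _ hmn
    refine Finset.disjoint_left.2 fun ij h1 h2 => hmn ?_
    rw [← (Finset.mem_antidiagonal.1 h1).2.2, ← (Finset.mem_antidiagonal.1 h2).2.2]
  rw [← Finset.sum_biUnion hd, Finset.sum_mul_sum, ← Finset.sum_product']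
  refine Finset.sum_le_sum_of_subset_of_nonneg ?_ fun _ _ _ => mul_nonneg (K.nonneg _) (K.nonneg _)
  intro ij hij
  exact Finset.mem_product.2 ⟨Finset.mem_image_of_mem _ hij, Finset.mem_image_of_mem _ hij⟩

end

/-- GE3 -/
theorem ge3 (hS : SrcStmt) : Ge3Stmt := by
  classical
  intro K G D _ _ _ sg S hB a b ha hb hIn u hu H E hH
  obtain ⟨hIa, hIb⟩ : a.In S ∧ b.In S := hIn
  obtain ⟨-, hta, hva, -⟩ := hS G D sg S a hIa
  obtain ⟨-, htb, hvb, -⟩ := hS G D sg S b hIb
  have hu' : u * a.tr ∈ S := mul_mem hu hta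
  have hHa : ∀ r ∈ a.src, u * r * u⁻¹ ∈ H := fun r hr => hH r (by
    change r ∈ a.src ⊔ (b.src).map (MulAut.conj a.tr).toMonoidHom
    exact Subgroup.mem_sup_left hr)
  have hcb : ∀ r ∈ b.src, a.tr * r * a.tr⁻¹ ∈ (Ex.mul a b).src := fun r hr => by
    change _ ∈ a.src ⊔ (b.src).map (MulAut.conj a.tr).toMonoidHom
    exact Subgroup.mem_sup_right ⟨r, hr, rfl⟩
  have e1 : ∀ r, u * (a.tr * r * a.tr⁻¹) * u⁻¹ = (u * a.tr) * r * (u * a.tr)⁻¹ := by
    intro r; group
  have hHb : ∀ r ∈ b.src, (u * a.tr) * r * (u * a.tr)⁻¹ ∈ H := fun r hr => by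
    rw [← e1]; exact hH _ (hcb r hr)
  obtain ⟨a0, a1, a2⟩ := ha hIa u hu H E hHa
  obtain ⟨b0, b1, b2⟩ := hb hIb (u * a.tr) hu' H E hHb
  have hxa : nv sg a u ∈ DS sg (H : Set G) := conj_mem sg u hHa hva
  have hxb : nv sg b (u * a.tr) ∈ DS sg (H : Set G) := conj_mem sg (u * a.tr) hHb hvb
  have hnv : nv sg (Ex.mul a b) u = nv sg a u * nv sg b (u * a.tr) := by
    unfold nv
    change sg u * (a.val sg * b.val sg * sg (a.tr * b.tr)⁻¹) * sg u⁻¹ = _
    rw [mul_inv_rev, mul_inv_rev, map_mul, map_mul, map_mul, sg_inv sg u, sg_inv sg a.tr,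
      sg_inv sg b.tr]
    have h1 := sg_ne sg u
    have h2 := sg_ne sg a.tr
    simp only [mul_assoc, inv_mul_cancel_left₀ h1, inv_mul_cancel_left₀ h2]
  set A := E.L (nv sg a u) with hA
  set B := E.L (nv sg b (u * a.tr)) with hBdef
  have hX : E.L (nv sg (Ex.mul a b) u) = A * B := by rw [hnv, E.L_mul _ hxa _ hxb]
  rw [hX]
  have hterm : ∀ i j, A.coeff i * B.coeff j ∈ DS sg (S : Set G) := fun i j => mul_mem (a0 i) (b0 j)
  have hle : ∀ n, cx K sg S ((A * B).coeff n) ≤
      ∑ ij ∈ Finset.antidiagonal A.isPWO_support B.isPWO_support n,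
        cx K sg S (A.coeff ij.1) * cx K sg S (B.coeff ij.2) := by
    intro n
    rw [HahnSeries.coeff_mul]
    refine (cx_sum hB _ _ fun ij _ => hterm _ _).trans ?_
    exact Finset.sum_le_sum fun ij _ => hB.mul _ (a0 _) _ (b0 _)
  refine ⟨fun n => ?_, fun F => ?_, fun hr n => ?_⟩
  · rw [HahnSeries.coeff_mul]
    exact sum_mem fun ij _ => hterm _ _
  · obtain ⟨F1, F2, h⟩ := anti_sum (fun i => cx K sg S (A.coeff i)) (fun j => cx K sg S (B.coeff j))
      A.isPWO_support B.isPWO_support F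
    refine ((Finset.sum_le_sum fun n _ => hle n).trans h).trans ?_
    exact mul_le_mul (a1 F1) (b1 F2) (K.nonneg _) (K.nonneg _)
  · have hpa : 0 < cpx K a := zero_lt_cpx hB a
    have hpb : 0 < cpx K b := zero_lt_cpx hB b
    -- the sum over the antidiagonal of the complexities
    refine lt_of_le_of_lt (hle n) ?_
    by_cases hca : ∃ r ∈ a.src, E.c (u * r * u⁻¹) ≠ 0
    · have hlt := a2 hca
      rcases (Finset.antidiagonal A.isPWO_support B.isPWO_support n).eq_empty_or_nonempty with he | hne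
      · rw [he, Finset.sum_empty]
        exact mul_pos hpa hpb
      · obtain ⟨m, hm, hmax⟩ := Finset.exists_max_image _ (fun ij : ℤ × ℤ => cx K sg S (A.coeff ij.1)) hne
        have h1 : ∑ ij ∈ Finset.antidiagonal A.isPWO_support B.isPWO_support n,
            cx K sg S (A.coeff ij.1) * cx K sg S (B.coeff ij.2) ≤
            cx K sg S (A.coeff m.1) * cpx K b := by
          refine (Finset.sum_le_sum fun ij hij =>
            mul_le_mul_of_nonneg_right (hmax ij hij) (K.nonneg _)).trans ?_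
          rw [← Finset.mul_sum]
          refine mul_le_mul_of_nonneg_left ?_ (K.nonneg _)
          have h2 := b1 ((Finset.antidiagonal A.isPWO_support B.isPWO_support n).image Prod.snd)
          rw [Finset.sum_image] at h2
          · exact h2
          · intro x hx y hy hxy
            have hx' := (Finset.mem_antidiagonal.1 hx).2.2
            have hy' := (Finset.mem_antidiagonal.1 hy).2.2
            refine Prod.ext ?_ hxy
            have : x.1 + x.2 = y.1 + y.2 := by rw [hx', hy']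
            omega
        exact lt_of_le_of_lt h1 (mul_lt_mul_of_pos_right (hlt _) hpb)
    · have hcb' : ∃ r ∈ b.src, E.c ((u * a.tr) * r * (u * a.tr)⁻¹) ≠ 0 := by
        by_contra hcon
        push Not at hca hcon
        obtain ⟨r, hr, hr0⟩ := hr
        -- the subgroup where the character vanishes
        apply hr0
        let N : Subgroup G :=
          { carrier := {g | u * g * u⁻¹ ∈ H ∧ E.c (u * g * u⁻¹) = 0}
            one_mem' := by
              have h1 : E.c (1 * 1) = E.c 1 + E.c 1 := E.c_mul 1 (one_mem H) 1 (one_mem H)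
              rw [mul_one] at h1
              refine ⟨?_, ?_⟩
              · rw [mul_one, mul_inv_cancel]; exact one_mem H
              · rw [mul_one, mul_inv_cancel]; omega
            mul_mem' := by
              rintro x y ⟨hx, hx0⟩ ⟨hy, hy0⟩
              have e : u * (x * y) * u⁻¹ = (u * x * u⁻¹) * (u * y * u⁻¹) := by group
              refine ⟨?_, ?_⟩
              · rw [e]; exact mul_mem hx hy
              · rw [e, E.c_mul _ hx _ hy, hx0, hy0, add_zero]
            inv_mem' := by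
              rintro x ⟨hx, hx0⟩
              have e : u * x⁻¹ * u⁻¹ = (u * x * u⁻¹)⁻¹ := by group
              have h0 : E.c (1 * 1) = E.c 1 + E.c 1 := E.c_mul 1 (one_mem H) 1 (one_mem H)
              rw [mul_one] at h0
              have h1 := E.c_mul _ hx _ (inv_mem hx)
              rw [mul_inv_cancel, hx0] at h1
              refine ⟨?_, ?_⟩
              · rw [e]; exact inv_mem hx
              · rw [e]; omega }
        have hN : (Ex.mul a b).src ≤ N := by
          change a.src ⊔ (b.src).map (MulAut.conj a.tr).toMonoidHom ≤ N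
          refine sup_le (fun g hg => ⟨hHa g hg, hca g hg⟩) ?_
          rintro _ ⟨g, hg, rfl⟩
          refine ⟨hH _ (hcb g hg), ?_⟩
          change E.c (u * (a.tr * g * a.tr⁻¹) * u⁻¹) = 0
          rw [e1]
          exact hcon g hg
        exact (hN hr).2
      have hlt := b2 hcb'
      rcases (Finset.antidiagonal A.isPWO_support B.isPWO_support n).eq_empty_or_nonempty with he | hne
      · rw [he, Finset.sum_empty]
        exact mul_pos hpa hpb
      · obtain ⟨m, hm, hmax⟩ := Finset.exists_max_image _ (fun ij : ℤ × ℤ => cx K sg S (B.coeff ij.2)) hne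
        have h1 : ∑ ij ∈ Finset.antidiagonal A.isPWO_support B.isPWO_support n,
            cx K sg S (A.coeff ij.1) * cx K sg S (B.coeff ij.2) ≤
            cpx K a * cx K sg S (B.coeff m.2) := by
          refine (Finset.sum_le_sum fun ij hij =>
            mul_le_mul_of_nonneg_left (hmax ij hij) (K.nonneg _)).trans ?_
          rw [← Finset.sum_mul]
          refine mul_le_mul_of_nonneg_right ?_ (K.nonneg _)
          have h2 := a1 ((Finset.antidiagonal A.isPWO_support B.isPWO_support n).image Prod.fst)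
          rw [Finset.sum_image] at h2
          · exact h2
          · intro x hx y hy hxy
            have hx' := (Finset.mem_antidiagonal.1 hx).2.2
            have hy' := (Finset.mem_antidiagonal.1 hy).2.2
            refine Prod.ext hxy ?_
            have : x.1 + x.2 = y.1 + y.2 := by rw [hx', hy']
            omega
        exact lt_of_le_of_lt h1 (mul_lt_mul_of_pos_left (hlt _) hpa)

/-- the coefficients of the inverse -/
theorem inv_coeff [CharP D 2] {K : Cxs} {sg : G →* D} {S : Subgroup G} (hB : CxB K sg S)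
    (A X : HahnSeries ℤ D) (c0 : K.T) (hA0 : ∀ i, A.coeff i ∈ DS sg (S : Set G))
    (hA : ∀ i, cx K sg S (A.coeff i) < c0) (hAne : A ≠ 0) (hAX : A * X = 1) :
    ∀ j, X.coeff j ∈ DS sg (S : Set G) ∧ cx K sg S (X.coeff j) < K.Om c0 := by
  classical
  have hpos : (0 : K.T) < K.Om c0 := lt_trans zero_lt_one (K.one_lt_Om c0)
  have h1S : (1 : D) ∈ DS sg (S : Set G) := one_mem _
  have hcx1 : cx K sg S (1 : D) < K.Om c0 := by
    have h := hB.le (Ex.of (1 : G)) (show (1 : G) ∈ S from one_mem S)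
    change cx K sg S (sg 1) ≤ 1 at h
    rw [map_one] at h
    exact lt_of_le_of_lt h (K.one_lt_Om c0)
  have hcx0 : cx K sg S (0 : D) < K.Om c0 := by rw [hB.zero]; exact hpos
  have key : ∀ (n : ℕ) (j : ℤ), j < X.order + n →
      X.coeff j ∈ DS sg (S : Set G) ∧ cx K sg S (X.coeff j) < K.Om c0 := by
    intro n
    induction n with
    | zero =>
      intro j hj
      rw [HahnSeries.coeff_eq_zero_of_lt_order (by simpa using hj)]
      exact ⟨zero_mem _, hcx0⟩
    | succ n ih =>
      intro j hj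
      by_cases hXj : X.coeff j = 0
      · rw [hXj]
        exact ⟨zero_mem _, hcx0⟩
      have hm : A.coeff A.order ≠ 0 := HahnSeries.coeff_order_eq_zero.not.2 hAne
      have hc : (A * X).coeff (A.order + j) = (1 : HahnSeries ℤ D).coeff (A.order + j) := by rw [hAX]
      rw [HahnSeries.coeff_mul] at hc
      have hmem : ((A.order, j) : ℤ × ℤ) ∈
          Finset.antidiagonal A.isPWO_support X.isPWO_support (A.order + j) :=
        Finset.mem_antidiagonal.2 ⟨hm, hXj, rfl⟩
      rw [← Finset.add_sum_erase _ _ hmem] at hc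
      set R := ∑ ij ∈ (Finset.antidiagonal A.isPWO_support X.isPWO_support (A.order + j)).erase
        (A.order, j), A.coeff ij.1 * X.coeff ij.2 with hR
      have hterms : ∀ ij ∈ (Finset.antidiagonal A.isPWO_support X.isPWO_support
          (A.order + j)).erase (A.order, j), X.coeff ij.2 ∈ DS sg (S : Set G) ∧
          cx K sg S (X.coeff ij.2) < K.Om c0 := by
        intro ij hij
        obtain ⟨hne, hij⟩ := Finset.mem_erase.1 hij
        obtain ⟨h1, -, h3⟩ := Finset.mem_antidiagonal.1 hij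
        have h4 : A.order ≤ ij.1 := HahnSeries.order_le_of_coeff_ne_zero h1
        refine ih ij.2 ?_
        have h5 : ij.1 ≠ A.order := fun h => hne (Prod.ext h (by
          change ij.2 = j
          omega))
        push_cast at hj
        omega
      have hRS : R ∈ DS sg (S : Set G) := sum_mem fun ij hij => mul_mem (hA0 _) (hterms ij hij).1
      have hRc : cx K sg S R < K.Om c0 := by
        refine lt_of_le_of_lt (cx_sum hB _ _ fun ij hij => mul_mem (hA0 _) (hterms ij hij).1) ?_
        refine sum_lt_Om c0 _ _ fun ij hij => ?_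
        exact lt_of_le_of_lt (hB.mul _ (hA0 _) _ (hterms ij hij).1)
          (K.Om_mul _ _ _ (lt_of_lt_of_le (hA _) (K.le_Om c0)) (hterms ij hij).2)
      have hone : (1 : HahnSeries ℤ D).coeff (A.order + j) ∈ DS sg (S : Set G) ∧
          cx K sg S ((1 : HahnSeries ℤ D).coeff (A.order + j)) < K.Om c0 := by
        rw [HahnSeries.coeff_one]
        split_ifs
        · exact ⟨h1S, hcx1⟩
        · exact ⟨zero_mem _, hcx0⟩
      have hXe : X.coeff j = (A.coeff A.order)⁻¹ *
          ((1 : HahnSeries ℤ D).coeff (A.order + j) + R) := by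
        rw [← hc, add_assoc, CharTwo.add_self_eq_zero, add_zero, inv_mul_cancel_left₀ hm]
      have hi : (A.coeff A.order)⁻¹ ∈ DS sg (S : Set G) := inv_mem (hA0 _)
      rw [hXe]
      refine ⟨mul_mem hi (add_mem hone.1 hRS), ?_⟩
      refine lt_of_le_of_lt (hB.mul _ hi _ (add_mem hone.1 hRS)) (K.Om_mul _ _ _ ?_ ?_)
      · exact lt_of_le_of_lt (hB.inv _ (hA0 _)) (K.Om_strict (hA _))
      · exact lt_of_le_of_lt (hB.add _ hone.1 _ hRS) (K.Om_add _ _ _ hone.2 hRc)
  intro j
  refine key ((j - X.order).toNat + 1) j ?_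
  push_cast
  omega

/-- GE4 -/
theorem ge4 (hS : SrcStmt) : Ge4Stmt := by
  classical
  intro K G D _ _ _ sg S hB a ha hIn u hu H E hH
  have hIa : a.In S := hIn
  obtain ⟨-, hta, hva, -⟩ := hS G D sg S a hIa
  have hu'' : u * (a.tr)⁻¹ ∈ S := mul_mem hu (inv_mem hta)
  have e1 : ∀ r, u * ((a.tr)⁻¹ * r * ((a.tr)⁻¹)⁻¹) * u⁻¹ =
      (u * (a.tr)⁻¹) * r * (u * (a.tr)⁻¹)⁻¹ := by intro r; group
  have hcs : ∀ r ∈ a.src, (a.tr)⁻¹ * r * ((a.tr)⁻¹)⁻¹ ∈ (Ex.inv a).src := fun r hr => ⟨r, hr, rfl⟩
  have hHa : ∀ r ∈ a.src, (u * (a.tr)⁻¹) * r * (u * (a.tr)⁻¹)⁻¹ ∈ H := fun r hr => by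
    rw [← e1]; exact hH _ (hcs r hr)
  obtain ⟨a0, a1, a2⟩ := ha hIa (u * (a.tr)⁻¹) hu'' H E hHa
  have hnv : nv sg (Ex.inv a) u = (nv sg a (u * (a.tr)⁻¹))⁻¹ := by
    unfold nv
    change sg u * ((a.val sg)⁻¹ * sg ((a.tr)⁻¹)⁻¹) * sg u⁻¹ = _
    rw [mul_inv_rev u, inv_inv, map_mul, map_mul, sg_inv sg u, sg_inv sg a.tr]
    have h1 := sg_ne sg u
    have h2 := sg_ne sg a.tr
    rw [mul_inv_rev, mul_inv_rev, mul_inv_rev, mul_inv_rev, mul_inv_rev, inv_inv, inv_inv]
    simp only [mul_assoc, inv_mul_cancel_left₀ h2]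
  set x := nv sg a (u * (a.tr)⁻¹) with hx
  have hxH : x ∈ DS sg (H : Set G) := conj_mem sg _ hHa hva
  have hOm : (0 : K.T) < K.Om (cpx K a) := lt_trans zero_lt_one (K.one_lt_Om _)
  rw [hnv]
  change _ ∧ (∀ F : Finset ℤ, _ ≤ K.Om (cpx K a)) ∧ (_ → ∀ i, _ < K.Om (cpx K a))
  by_cases hx0 : x = 0
  · have hL0 : E.L 0 = 0 := by
      have h := E.L_add 0 (zero_mem _) 0 (zero_mem _)
      rw [add_zero] at h
      exact left_eq_add.1 h
    rw [hx0, inv_zero, hL0]
    refine ⟨fun i => ?_, fun F => ?_, fun _ i => ?_⟩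
    · rw [HahnSeries.coeff_zero]; exact zero_mem _
    · simp only [HahnSeries.coeff_zero, hB.zero, Finset.sum_const_zero]
      exact K.nonneg _
    · rw [HahnSeries.coeff_zero, hB.zero]; exact hOm
  have hAX : E.L x * E.L x⁻¹ = 1 := by
    rw [← E.L_mul x hxH x⁻¹ (inv_mem hxH), mul_inv_cancel₀ hx0, E.L_one]
  by_cases hc : ∃ r ∈ a.src, E.c ((u * (a.tr)⁻¹) * r * (u * (a.tr)⁻¹)⁻¹) ≠ 0
  · have hAne : E.L x ≠ 0 := fun h => hx0 (E.L_inj x hxH h)
    have hk := inv_coeff hB (E.L x) (E.L x⁻¹) (cpx K a) a0 (a2 hc) hAne hAX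
    refine ⟨fun i => (hk i).1, fun F => ?_, fun _ i => (hk i).2⟩
    exact (sum_lt_Om _ F (fun i => cx K sg S ((E.L x⁻¹).coeff i)) fun i _ => (hk i).2).le
  · push Not at hc
    have hxk : x ∈ DS sg {y | y ∈ H ∧ E.c y = 0} :=
      conj_mem (R' := {y | y ∈ H ∧ E.c y = 0}) sg _ (fun r hr => ⟨hHa r hr, hc r hr⟩) hva
    have hLx := E.L_ker x hxk
    have hLi := E.L_ker x⁻¹ (inv_mem hxk)
    have hxS : x ∈ DS sg (S : Set G) := by
      have h := a0 0
      rw [hLx, HahnSeries.coeff_single_same] at h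
      exact h
    have hcxx : cx K sg S x ≤ cpx K a := by
      have h := a1 {0}
      rw [Finset.sum_singleton, hLx, HahnSeries.coeff_single_same] at h
      exact h
    have hcxi : cx K sg S x⁻¹ ≤ K.Om (cpx K a) :=
      (hB.inv x hxS).trans (K.Om_strict.monotone hcxx)
    rw [hLi]
    refine ⟨fun i => ?_, fun F => ?_, fun hr i => ?_⟩
    · rw [HahnSeries.coeff_single]
      split_ifs
      · exact inv_mem hxS
      · exact zero_mem _
    · have h : ∑ i ∈ F, cx K sg S ((HahnSeries.single (0 : ℤ) x⁻¹).coeff i) ≤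
          cx K sg S x⁻¹ := by
        by_cases h0 : (0 : ℤ) ∈ F
        · rw [Finset.sum_eq_single_of_mem (0 : ℤ) h0, HahnSeries.coeff_single_same]
          intro i _ hi
          rw [HahnSeries.coeff_single_of_ne hi, hB.zero]
        · rw [Finset.sum_eq_zero]
          · exact K.nonneg _
          · intro i hi
            have hi0 : i ≠ 0 := by
              rintro rfl
              exact h0 hi
            rw [HahnSeries.coeff_single_of_ne hi0, hB.zero]
      exact h.trans hcxi
    · exfalso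
      obtain ⟨r, hr, hr0⟩ := hr
      obtain ⟨g, hg, rfl⟩ := hr
      apply hr0
      change E.c (u * ((a.tr)⁻¹ * g * ((a.tr)⁻¹)⁻¹) * u⁻¹) = 0
      rw [e1]
      exact hc g hg

end

end Pool.Agent.HF.H79
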